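import Pool.Agent.W788.NW.Stm

set_option autoImplicit false

namespace Pool.Agent.W738.NW

open Finset Pool.Agent.W788.NV Pool.Agent.W788.NW

theorem sum_hit {V : Type} [Fintype V] [DecidableEq V] {q : ℕ} (k K : (V → Fin q) → ℝ)
    (Φ : Mp V q) : ∑ x, k x * K (Φ x) = ∑ z, K z * hit k z Φ := by
  unfold hit
  simp_rw [Finset.mul_sum]
  rw [Finset.sum_comm]
  refine Finset.sum_congr rfl fun x _ => ?_
  simp only [mul_ite, mul_zero]
  rw [Finset.sum_ite_eq Finset.univ (Φ x) (fun z => K z * k x)]
  simp [mul_comm]

theorem sum_upd {V : Type} [Fintype V] [DecidableEq V] {q : ℕ} (w : V) (a : Fin q)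
    (f : (V → Fin q) → ℝ) :
    ∑ z : V → Fin q, (if z w = a then ∑ c, f (Function.update z w c) else 0) = ∑ y, f y := by
  rw [← Finset.sum_filter, Finset.sum_sigma']
  refine Finset.sum_bij' (fun p _ => Function.update p.1 w p.2)
    (fun y _ => ⟨Function.update y w a, y w⟩) ?_ ?_ ?_ ?_ ?_
  · intro p _; exact Finset.mem_univ _
  · intro y _
    simp
  · rintro ⟨z, c⟩ hp
    simp only [Finset.mem_sigma, Finset.mem_filter, Finset.mem_univ, true_and, and_true] at hp
    have h1 : Function.update z w a = z := by
      rw [← hp]; exact Function.update_eq_self w z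
    simp [h1]
  · intro y _
    simp
  · intro p _
    rfl

theorem grd_ (h : MK) (h1 : S_GR1) (h2 : S_NU) (h3 : S_LAW) (_ : S_TOT) : S_GRD := by
  intro V _ _ G q θ Δ η S ω hy a b x0 g T t ht hT
  have hq : 1 ≤ q := le_trans (by norm_num) hy.q2
  have hμ := ((h3 V G q θ hq hy.t0 hy.t1.le hy.d1).1 x0 (T - t) (by linarith)).1
  set μ : (V → Fin q) → ℝ := law G q θ x0 (T - t) with hμd
  set K : V → (V → Fin q) → ℝ := fun w z =>
    (g (Function.update z w a) - g (Function.update z w b)) ^ 2 with hK
  have hK0 : ∀ w z, 0 ≤ K w z := fun w z => sq_nonneg _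
  have hKu : ∀ w z c, K w (Function.update z w c) = K w z := by
    intro w z c
    simp only [hK, Function.update_idem]
  have e1 : ∀ v x, (pt G q θ t g (Function.update x v a) -
      pt G q θ t g (Function.update x v b)) ^ 2 ≤ Δ * Real.exp (-2 * θ * t) *
      ∑ w, sx G q θ a b t (fun p => if p.1 = v then K w (p.2 x) else 0) (st w a) :=
    fun v x => h1 V G q θ Δ hq hy.t0.le hy.t1.le hy.d1 hy.dD a b g x v t ht
  have e2 : ∀ (w : V) (x : V → Fin q),
      ∑ v, sx G q θ a b t (fun p => if p.1 = v then K w (p.2 x) else 0) (st w a) =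
      sx G q θ a b t (fun p => K w (p.2 x)) (st w a) := by
    intro w x
    have := h.lin (V × Mp V q) _ V (srate G q θ) (sm (V := V) a b) (fun _ => (1 : ℝ))
      (fun v p => if p.1 = v then K w (p.2 x) else 0) (st w a) t
    simp only [one_mul] at this
    unfold sx
    rw [← this]
    congr 1
    funext p
    simp
  have e3 : ∀ w : V, ∑ x, μ x * sx G q θ a b t (fun p => K w (p.2 x)) (st w a) =
      ∑ z, K w z * sx G q θ a b t (fun p => hit μ z p.2) (st w a) := by
    intro w
    have l1 := h.lin (V × Mp V q) _ (V → Fin q) (srate G q θ) (sm (V := V) a b) μ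
      (fun x p => K w (p.2 x)) (st w a) t
    have l2 := h.lin (V × Mp V q) _ (V → Fin q) (srate G q θ) (sm (V := V) a b) (K w)
      (fun z p => hit μ z p.2) (st w a) t
    unfold sx
    rw [← l1, ← l2]
    congr 1
    funext p
    exact sum_hit μ (K w) p.2
  have e4 : ∀ (w : V) (z : V → Fin q), sx G q θ a b t (fun p => hit μ z p.2) (st w a) ≤
      cN q θ Δ η S * (if z w = a then ∑ c, law G q θ x0 T (Function.update z w c) else 0) :=
    fun w z => h2 V G q θ Δ η S ω hy a b x0 z w T t ht hT
  have e5 : ∀ w : V, ∑ z, K w z * sx G q θ a b t (fun p => hit μ z p.2) (st w a) ≤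
      cN q θ Δ η S * mean (law G q θ x0 T) (K w) := by
    intro w
    calc ∑ z, K w z * sx G q θ a b t (fun p => hit μ z p.2) (st w a)
        ≤ ∑ z, K w z * (cN q θ Δ η S *
          (if z w = a then ∑ c, law G q θ x0 T (Function.update z w c) else 0)) :=
          Finset.sum_le_sum fun z _ => mul_le_mul_of_nonneg_left (e4 w z) (hK0 w z)
      _ = cN q θ Δ η S * ∑ z : V → Fin q, (if z w = a then
            ∑ c, (fun y => law G q θ x0 T y * K w y) (Function.update z w c) else 0) := by
          rw [Finset.mul_sum]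
          refine Finset.sum_congr rfl fun z _ => ?_
          split_ifs with hz
          · simp only [hKu]
            rw [← Finset.sum_mul]
            ring
          · ring
      _ = cN q θ Δ η S * mean (law G q θ x0 T) (K w) := by
          have := sum_upd w a (fun y => law G q θ x0 T y * K w y)
          unfold mean
          rw [← this]
  calc ∑ v, mean μ (fun x => (pt G q θ t g (Function.update x v a) -
        pt G q θ t g (Function.update x v b)) ^ 2)
      ≤ ∑ v, ∑ x, μ x * (Δ * Real.exp (-2 * θ * t) *
        ∑ w, sx G q θ a b t (fun p => if p.1 = v then K w (p.2 x) else 0) (st w a)) := by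
        refine Finset.sum_le_sum fun v _ => ?_
        unfold mean
        exact Finset.sum_le_sum fun x _ => mul_le_mul_of_nonneg_left (e1 v x) (hμ x)
    _ = Δ * Real.exp (-2 * θ * t) * ∑ w, ∑ x, μ x *
        ∑ v, sx G q θ a b t (fun p => if p.1 = v then K w (p.2 x) else 0) (st w a) := by
        simp_rw [Finset.mul_sum]
        rw [Finset.sum_comm]
        conv_rhs => rw [Finset.sum_comm]
        refine Finset.sum_congr rfl fun x _ => ?_
        rw [Finset.sum_comm]
        refine Finset.sum_congr rfl fun w _ => ?_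
        refine Finset.sum_congr rfl fun v _ => ?_
        ring
    _ = Δ * Real.exp (-2 * θ * t) * ∑ w, ∑ z, K w z *
        sx G q θ a b t (fun p => hit μ z p.2) (st w a) := by
        simp_rw [e2, e3]
    _ ≤ Δ * Real.exp (-2 * θ * t) * ∑ w, cN q θ Δ η S * mean (law G q θ x0 T) (K w) :=
        mul_le_mul_of_nonneg_left (Finset.sum_le_sum fun w _ => e5 w) (by positivity)
    _ = _ := by
        rw [← Finset.mul_sum]
        ring

end Pool.Agent.W738.NW
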